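import Pool.Agent.H131.V1.Mass

/-! The critical mass of the arms: walks in a half-plane from its boundary to a visible point. -/

set_option autoImplicit false

namespace H131.V1

open H978R2.Hex

theorem nxt_add (k : Fin 6) (v s : V) (hs : (s.1 + s.2) % 2 = 0) : nxt k (v + s) = nxt k v + s := by
  obtain ⟨a, b⟩ := v
  obtain ⟨c, d⟩ := s
  simp only at hs
  have h1 : (a + c + (b + d)) % 2 = 0 ↔ (a + b) % 2 = 0 := by omega
  have e1 : ((a, b) : V) + (c, d) = (a + c, b + d) := rfl
  rw [e1]
  fin_cases k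
  · show ((a + c + 1, b + d) : V) = (a + 1, b) + (c, d)
    rw [Prod.mk_add_mk, Prod.mk.injEq]; omega
  · show (if (a + c + (b + d)) % 2 = 0 then ((a + c, b + d + 1) : V) else (a + c + 1, b + d)) =
      (if (a + b) % 2 = 0 then (a, b + 1) else (a + 1, b)) + (c, d)
    simp only [h1]
    split_ifs <;> rw [Prod.mk_add_mk, Prod.mk.injEq] <;> omega
  · show (if (a + c + (b + d)) % 2 = 0 then ((a + c, b + d + 1) : V) else (a + c - 1, b + d)) =
      (if (a + b) % 2 = 0 then (a, b + 1) else (a - 1, b)) + (c, d)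
    simp only [h1]
    split_ifs <;> rw [Prod.mk_add_mk, Prod.mk.injEq] <;> omega
  · show ((a + c - 1, b + d) : V) = (a - 1, b) + (c, d)
    rw [Prod.mk_add_mk, Prod.mk.injEq]; omega
  · show (if (a + c + (b + d)) % 2 = 0 then ((a + c - 1, b + d) : V) else (a + c, b + d - 1)) =
      (if (a + b) % 2 = 0 then (a - 1, b) else (a, b - 1)) + (c, d)
    simp only [h1]
    split_ifs <;> rw [Prod.mk_add_mk, Prod.mk.injEq] <;> omega
  · show (if (a + c + (b + d)) % 2 = 0 then ((a + c + 1, b + d) : V) else (a + c, b + d - 1)) =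
      (if (a + b) % 2 = 0 then (a + 1, b) else (a, b - 1)) + (c, d)
    simp only [h1]
    split_ifs <;> rw [Prod.mk_add_mk, Prod.mk.injEq] <;> omega

theorem iter_add (k : Fin 6) (j : ℕ) (v s : V) (hs : (s.1 + s.2) % 2 = 0) :
    (nxt k)^[j] (v + s) = (nxt k)^[j] v + s := by
  induction j generalizing v with
  | zero => rfl
  | succ j ih => rw [Function.iterate_succ_apply, Function.iterate_succ_apply, nxt_add _ _ _ hs, ih]

theorem ray_add {k : Fin 6} {v w s : V} (hs : (s.1 + s.2) % 2 = 0) :
    w + s ∈ Ray k (v + s) ↔ w ∈ Ray k v := by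
  unfold Ray
  simp only [Set.mem_ofPred_eq]
  constructor
  · rintro ⟨j, hj, h⟩
    rw [iter_add _ _ _ _ hs] at h
    exact ⟨j, hj, add_right_cancel h⟩
  · rintro ⟨j, hj, rfl⟩
    exact ⟨j, hj, iter_add _ _ _ _ hs⟩

/-- the domain of an arm -/
def AD (s : V) (N : ℤ) (k : Fin 6) (y w : V) : Prop :=
  1 + (s.1 - s.2) ≤ w.1 - w.2 ∧ w.1 ≤ N ∧ -N ≤ w.2 ∧ w ∉ Ray k y

/-- a landing walk in the domain of an arm, as a reversed list -/
def Arm (s : V) (N : ℤ) (k : Fin 6) (y : V) (l : List V) : Prop :=
  ∃ z t, l = z :: t ∧ [((s.1 + 1, s.2) : V), s] <:+ l ∧ l.IsChain (fun x y => Adj y x) ∧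
    t.Nodup ∧ (∀ v ∈ t.dropLast, AD s N k y v) ∧ (∀ a b r, t = a :: b :: r → z ≠ b) ∧
    ¬ AD s N k y z

theorem adj_sub {p q s : V} (hs : (s.1 + s.2) % 2 = 0) (h : Adj p q) : Adj (p - s) (q - s) := by
  rw [adj_iff] at h ⊢
  simp only [Prod.fst_sub, Prod.snd_sub]
  omega

theorem arm_le (s : V) (hs : (s.1 + s.2) % 2 = 0) (N : ℤ) (y : V) (k : Fin 6) (hk2 : k ≠ 2)
    (hk3 : k ≠ 3) (hq : AD s N k y (s.1 + 1, s.2)) (H : Finset (List V))
    (hH : ∀ l ∈ H, Arm s N k y l) : ∑ l ∈ H, (mu0⁻¹) ^ (l.length - 2) ≤ c0 := by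
  classical
  set Om : V → Prop := fun w => AD s N k y (w + s) with hOm
  have hinj : Function.Injective (fun l : List V => l.map (fun w => w - s)) :=
    List.map_injective_iff.mpr (fun a b h => sub_left_injective h)
  have e0 : ∑ l ∈ H, (mu0⁻¹) ^ (l.length - 2) =
      ∑ l ∈ H.image (fun l : List V => l.map (fun w => w - s)), (mu0⁻¹) ^ (l.length - 2) := by
    rw [Finset.sum_image (fun a _ b _ h => hinj h)]
    refine Finset.sum_congr rfl fun l _ => ?_
    rw [List.length_map]
  rw [e0]
  have hO : ∀ w, Om w → 1 ≤ w.1 - w.2 := by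
    intro w hw
    obtain ⟨h1, -⟩ := hw
    simp only [Prod.fst_add, Prod.snd_add] at h1
    omega
  refine mass_le (Om := Om) ?_ hO
    ((Finset.Icc (-N - s.2) (N - s.1)) ×ˢ (Finset.Icc (-N - s.2) (N - s.1))) ?_ ?_ _ ?_
  · show AD s N k y ((1, 0) + s)
    have : ((1, 0) : V) + s = (s.1 + 1, s.2) := by
      apply Prod.ext
      · simp only [Prod.fst_add]; ring
      · simp only [Prod.snd_add]; ring
    rw [this]
    exact hq
  · intro w hw
    obtain ⟨h1, h2, h3, -⟩ := hw
    simp only [Prod.fst_add, Prod.snd_add] at h1 h2 h3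
    rw [Finset.mem_product, Finset.mem_Icc, Finset.mem_Icc]
    refine ⟨⟨?_, ?_⟩, ?_, ?_⟩ <;> omega
  · intro z v hv hadj hz
    have hcz : 0 ≤ z.1 - z.2 := by
      have := hO v hv
      rw [adj_iff] at hadj
      omega
    by_cases h0 : z.1 - z.2 = 0
    · exact Or.inl h0
    right
    by_cases hr : z + s ∈ Ray k y
    · refine ⟨k, hk2, hk3, fun w hw hwr => ?_⟩
      obtain ⟨-, -, -, h4⟩ := hw
      apply h4
      apply ray_next hr
      rw [ray_add hs]
      exact hwr
    · refine ⟨0, by decide, by decide, fun w hw hwr => ?_⟩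
      rw [ray_zero] at hwr
      obtain ⟨h1, h2, h3, -⟩ := hw
      apply hz
      simp only [Prod.fst_add, Prod.snd_add] at h1 h2 h3
      refine ⟨?_, ?_, ?_, hr⟩ <;> simp only [Prod.fst_add, Prod.snd_add] <;> omega
  · intro l hl
    rw [Finset.mem_image] at hl
    obtain ⟨l', hl', rfl⟩ := hl
    obtain ⟨z, t, rfl, h1, h2, h3, h4, h5, h6⟩ := hH l' hl'
    constructor
    · simp only [List.map_cons]
      rw [val_iff]
      refine ⟨?_, ?_, ?_, ?_, ?_⟩
      · have h7 := List.IsSuffix.map (fun w => w - s) h1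
        have e1 : [((s.1 + 1, s.2) : V), s].map (fun w => w - s) = [((1, 0) : V), (0, 0)] := by
          simp only [List.map_cons, List.map_nil, List.cons.injEq, and_true]
          constructor
          · apply Prod.ext
            · simp only [Prod.fst_sub]; ring
            · simp only [Prod.snd_sub]; ring
          · exact sub_self s
        rw [e1] at h7
        exact h7
      · show ((z :: t).map (fun w => w - s)).IsChain (fun x y => Adj y x)
        rw [List.isChain_map]
        exact h2.imp (fun a b hab => adj_sub hs hab)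
      · exact (List.nodup_map_iff (fun a b h => sub_left_injective h)).mpr h3
      · intro v hv
        rw [← List.map_dropLast, List.mem_map] at hv
        obtain ⟨u, hu, rfl⟩ := hv
        show AD s N k y (u - s + s)
        rw [sub_add_cancel]
        exact h4 u hu
      · intro a b r hab hzb
        match t, hab with
        | a' :: b' :: r', hab =>
          simp only [List.map_cons, List.cons.injEq] at hab
          apply h5 a' b' r' rfl
          rw [← hab.2.1] at hzb
          exact sub_left_injective hzb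
    · simp only [List.map_cons, List.headD_cons]
      show ¬ AD s N k y (z - s + s)
      rw [sub_add_cancel]
      exact h6

end H131.V1
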