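import Pool.Agent.H131.V1.Core

/-! The core estimate for all pairs of directions, and its sum over the end points. -/

set_option autoImplicit false

namespace H131.V1

open H978R2.Hex

/-- the rotations by multiples of 60 degrees -/
theorem exists_rot (j : Fin 6) : ∃ T : V → V, Function.Injective T ∧
    (∀ p q, Adj p q → Adj (T p) (T q)) ∧
    ∀ (k : Fin 6) (v w : V), T w ∈ Ray (k + j) (T v) ↔ w ∈ Ray k v := by
  have hR : ∃ T : V → V, Function.Injective T ∧ (∀ p q, Adj p q → Adj (T p) (T q)) ∧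
      ∀ (k : Fin 6) (v w : V), T w ∈ Ray (k + 2) (T v) ↔ w ∈ Ray k v :=
    ⟨R, R_inj, fun _ _ h => R_adj h, fun _ _ _ => ray_R⟩
  have hJ : ∃ T : V → V, Function.Injective T ∧ (∀ p q, Adj p q → Adj (T p) (T q)) ∧
      ∀ (k : Fin 6) (v w : V), T w ∈ Ray (k + 3) (T v) ↔ w ∈ Ray k v :=
    ⟨J, J_inj, fun _ _ h => J_adj h, fun _ _ _ => ray_J⟩
  have hcomp : ∀ i j : Fin 6,
      (∃ T : V → V, Function.Injective T ∧ (∀ p q, Adj p q → Adj (T p) (T q)) ∧
        ∀ (k : Fin 6) (v w : V), T w ∈ Ray (k + i) (T v) ↔ w ∈ Ray k v) →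
      (∃ T : V → V, Function.Injective T ∧ (∀ p q, Adj p q → Adj (T p) (T q)) ∧
        ∀ (k : Fin 6) (v w : V), T w ∈ Ray (k + j) (T v) ↔ w ∈ Ray k v) →
      ∃ T : V → V, Function.Injective T ∧ (∀ p q, Adj p q → Adj (T p) (T q)) ∧
        ∀ (k : Fin 6) (v w : V), T w ∈ Ray (k + (i + j)) (T v) ↔ w ∈ Ray k v := by
    rintro i j ⟨T, h1, h2, h3⟩ ⟨S, g1, g2, g3⟩
    refine ⟨S ∘ T, g1.comp h1, fun p q h => g2 _ _ (h2 _ _ h), fun k v w => ?_⟩
    rw [Function.comp_apply, Function.comp_apply, ← add_assoc, g3, h3]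
  have h4 := hcomp 2 2 hR hR
  have h5 := hcomp 2 3 hR hJ
  have h1 := hcomp _ _ h4 hJ
  have h0 := hcomp _ _ h4 hR
  fin_cases j
  · exact h0
  · exact h1
  · exact hR
  · exact hJ
  · exact h4
  · exact h5

theorem exists_shift (a b : Fin 6) : ∃ j : Fin 6, a + j ≠ 2 ∧ a + j ≠ 3 ∧ b + j ≠ 2 ∧ b + j ≠ 3 := by
  revert a b
  decide

/-- **Core estimate**, all directions. -/
theorem core_gen (D : Finset V) {x y : V} (kx ky : Fin 6) (hx : ∀ w ∈ D, w ∉ Ray kx x)
    (hy : ∀ w ∈ D, w ∉ Ray ky y) (G : Finset (List V)) (hG : ∀ l ∈ G, Saw D x y l) :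
    ∑ l ∈ G, (mu0⁻¹) ^ (l.length - 1) ≤ 24 * D.card := by
  classical
  obtain ⟨j, a1, a2, a3, a4⟩ := exists_shift kx ky
  obtain ⟨T, h1, h2, h3⟩ := exists_rot j
  have hinj : Function.Injective (fun l : List V => l.map T) := List.map_injective_iff.mpr h1
  have key := core (D.image T) (x := T x) (y := T y) a1 a2 a3 a4
    (by
      intro w hw
      obtain ⟨u, hu, rfl⟩ := Finset.mem_image.mp hw
      rw [h3]
      exact hx u hu)
    (by
      intro w hw
      obtain ⟨u, hu, rfl⟩ := Finset.mem_image.mp hw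
      rw [h3]
      exact hy u hu)
    (G.image (fun l : List V => l.map T))
    (by
      intro l hl
      obtain ⟨m, hm, rfl⟩ := Finset.mem_image.mp hl
      obtain ⟨g1, g2, g3, g4, g5⟩ := hG m hm
      refine ⟨?_, ?_, ?_, ?_, ?_⟩
      · rw [List.head?_map, g1]; rfl
      · rw [List.getLast?_map, g2]; rfl
      · exact (List.nodup_map_iff h1).mpr g3
      · rw [List.isChain_map]
        exact g4.imp (fun a b hab => h2 a b hab)
      · intro p hp
        obtain ⟨q, hq, rfl⟩ := List.mem_map.mp hp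
        exact Finset.mem_image_of_mem T (g5 q hq))
  rw [Finset.sum_image (fun a _ b _ h => hinj h), Finset.card_image_of_injective _ h1] at key
  simp only [List.length_map] at key
  exact key

/-- sum over the end points -/
theorem visible_sum (B : Finset V) (x : V) (T : Finset (List V))
    (hT : ∀ l ∈ T, ∃ (y : V) (k k' : Fin 6), Saw B x y l ∧ (∀ w ∈ l, w ∉ Ray k x) ∧
      ∀ w ∈ l, w ∉ Ray k' y) :
    ∑ l ∈ T, (mu0⁻¹) ^ (l.length - 1) ≤ 864 * (B.card : ℝ) ^ 2 := by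
  classical
  have hmu : 0 < mu0⁻¹ := inv_pos.mpr mu0_pos
  choose! fy fk fk' h1 h2 h3 using hT
  have hmaps : ∀ l ∈ T, (fy l, fk l, fk' l) ∈ B ×ˢ ((Finset.univ : Finset (Fin 6)) ×ˢ
      (Finset.univ : Finset (Fin 6))) := by
    intro l hl
    rw [Finset.mem_product, Finset.mem_product]
    refine ⟨?_, Finset.mem_univ _, Finset.mem_univ _⟩
    obtain ⟨g1, g2, g3, g4, g5⟩ := h1 l hl
    exact g5 _ (List.mem_of_getLast? g2)
  rw [← Finset.sum_fiberwise_of_maps_to hmaps]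
  have hfib : ∀ q ∈ B ×ˢ ((Finset.univ : Finset (Fin 6)) ×ˢ (Finset.univ : Finset (Fin 6))),
      ∑ l ∈ T.filter (fun l => (fy l, fk l, fk' l) = q), (mu0⁻¹) ^ (l.length - 1) ≤
        24 * (B.card : ℝ) := by
    rintro ⟨y, k, k'⟩ -
    refine le_trans (core_gen (B.filter (fun w => w ∉ Ray k x ∧ w ∉ Ray k' y)) (x := x) (y := y)
      k k' ?_ ?_ _ ?_) ?_
    · intro w hw
      exact (Finset.mem_filter.mp hw).2.1
    · intro w hw
      exact (Finset.mem_filter.mp hw).2.2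
    · intro l hl
      obtain ⟨hl1, hl2⟩ := Finset.mem_filter.mp hl
      simp only [Prod.mk.injEq] at hl2
      obtain ⟨rfl, rfl, rfl⟩ := hl2
      obtain ⟨g1, g2, g3, g4, g5⟩ := h1 l hl1
      refine ⟨g1, g2, g3, g4, fun p hp => ?_⟩
      rw [Finset.mem_filter]
      exact ⟨g5 p hp, h2 l hl1 p hp, h3 l hl1 p hp⟩
    · have : (B.filter (fun w => w ∉ Ray k x ∧ w ∉ Ray k' y)).card ≤ B.card :=
        Finset.card_filter_le _ _
      have h : ((B.filter (fun w => w ∉ Ray k x ∧ w ∉ Ray k' y)).card : ℝ) ≤ B.card := by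
        exact_mod_cast this
      linarith
  refine le_trans (Finset.sum_le_sum hfib) (le_of_eq ?_)
  rw [Finset.sum_const, Finset.card_product, Finset.card_product, Finset.card_univ,
    Fintype.card_fin, nsmul_eq_mul]
  push_cast
  ring

end H131.V1
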