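import Pool.Agent.H131.V1.Wind
import Pool.Graph.R_seed8.H978R2.Hex.Ident
import Pool.Graph.R_seed8.H978R2.Hex.MassLemmas

/-! The critical mass of the walks landing in a finite domain all of whose exits are visible. -/

set_option autoImplicit false

namespace H131.V1

open H978R2.Hex Complex

/-- `1 / cos (3 π / 8)` -/
noncomputable def c0 : ℝ := (Real.cos (3 * (Real.pi / 8)))⁻¹

theorem cos_pos : 0 < Real.cos (3 * (Real.pi / 8)) := by
  apply Real.cos_pos_of_mem_Ioo
  have := Real.pi_pos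
  constructor <;> linarith

theorem c0_pos : 0 < c0 := inv_pos.mpr cos_pos

theorem c0_sq : c0 * c0 = 2 * (2 + Real.sqrt 2) := by
  have h1 : Real.cos (2 * (3 * (Real.pi / 8))) = -(Real.sqrt 2 / 2) := by
    have : 2 * (3 * (Real.pi / 8)) = Real.pi - Real.pi / 4 := by ring
    rw [this, Real.cos_pi_sub, Real.cos_pi_div_four]
  rw [Real.cos_two_mul] at h1
  have h2 : Real.sqrt 2 * Real.sqrt 2 = 2 := Real.mul_self_sqrt (by norm_num)
  have h3 : Real.cos (3 * (Real.pi / 8)) * Real.cos (3 * (Real.pi / 8)) =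
      (2 - Real.sqrt 2) / 4 := by nlinarith
  have h4 : c0 * Real.cos (3 * (Real.pi / 8)) = 1 := inv_mul_cancel₀ cos_pos.ne'
  have h5 : c0 * c0 * ((2 - Real.sqrt 2) / 4) = 1 := by
    rw [← h3]
    calc c0 * c0 * (Real.cos (3 * (Real.pi / 8)) * Real.cos (3 * (Real.pi / 8)))
        = (c0 * Real.cos (3 * (Real.pi / 8))) * (c0 * Real.cos (3 * (Real.pi / 8))) := by ring
      _ = 1 := by rw [h4]; ring
  have h6 : (2 - Real.sqrt 2) * (2 + Real.sqrt 2) = 2 := by nlinarith
  linear_combination (-c0 * c0 / 2) * h6 + (4 * (2 + Real.sqrt 2) / 2) * h5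

theorem c0_le : c0 ≤ 3 := by
  have h1 := c0_sq
  have h2 : Real.sqrt 2 * Real.sqrt 2 = 2 := Real.mul_self_sqrt (by norm_num)
  have h3 : 0 ≤ Real.sqrt 2 := Real.sqrt_nonneg _
  have h4 : Real.sqrt 2 ≤ 3 / 2 := by
    by_contra hc
    rw [not_le] at hc
    nlinarith
  have h5 := c0_pos
  by_contra hc
  rw [not_le] at hc
  nlinarith

theorem cos_ge {w : ℤ} (h : |w| ≤ 3) :
    Real.cos (3 * (Real.pi / 8)) ≤ Real.cos ((w : ℝ) * (Real.pi / 8)) := by
  have hpi := Real.pi_pos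
  rw [← Real.cos_abs ((w : ℝ) * (Real.pi / 8)), abs_mul, abs_of_pos (by positivity : 0 < Real.pi / 8)]
  have h1 : |(w : ℝ)| ≤ 3 := by
    rw [← Int.cast_abs]
    exact_mod_cast h
  apply Real.cos_le_cos_of_nonneg_of_le_pi
  · positivity
  · linarith
  · nlinarith

theorem mass_le {Om : V → Prop} [DecidablePred Om] (h1 : Om (1, 0))
    (hO : ∀ w, Om w → 1 ≤ w.1 - w.2) (S : Finset V) (hS : ∀ v, Om v → v ∈ S)
    (hland : ∀ z v, Om v → Adj v z → ¬ Om z →
      z.1 - z.2 = 0 ∨ ∃ k : Fin 6, k ≠ 2 ∧ k ≠ 3 ∧ ∀ w, Om w → w ∉ Ray k z)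
    (F : Finset (List V)) (hF : ∀ l ∈ F, Val Om l ∧ ¬ Om (l.headD (0, 0))) :
    ∑ l ∈ F, (mu0⁻¹) ^ (l.length - 2) ≤ c0 := by
  classical
  have hmu : 0 < mu0⁻¹ := inv_pos.mpr mu0_pos
  have hOs : ∀ v, Om v → ¬ Slit v := by
    intro v hv hs
    have := hO v hv
    unfold Slit at hs
    omega
  set N := S.card + F.sup List.length with hN
  have hid := ident Om h1 hOs N
  rw [free_empty S hS N (by omega), Finset.sum_empty] at hid
  have hmuN : (mu0 : ℂ) ^ N ≠ 0 := pow_ne_zero _ (by exact_mod_cast mu0_pos.ne')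
  have h2 := (mul_eq_zero.mp hid.symm).resolve_left hmuN
  rw [sub_eq_zero] at h2
  have h3 := congrArg Complex.re h2.symm
  rw [Complex.re_sum, Complex.one_re] at h3
  have hterm : ∀ m, (∑ l ∈ (P Om m).filter (fun l => ¬ Om (l.headD (0, 0))),
      exp ((W l : ℂ) * (Real.pi / 8) * I) * ((mu0 : ℂ)⁻¹) ^ m).re =
      ∑ l ∈ (P Om m).filter (fun l => ¬ Om (l.headD (0, 0))),
        Real.cos ((W l : ℝ) * (Real.pi / 8)) * (mu0⁻¹) ^ m := by
    intro m
    rw [Complex.re_sum]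
    refine Finset.sum_congr rfl fun l _ => ?_
    have e1 : ((mu0 : ℂ)⁻¹) ^ m = (((mu0⁻¹) ^ m : ℝ) : ℂ) := by push_cast; rfl
    have e2 : (W l : ℂ) * (Real.pi / 8) * I = (((W l : ℝ) * (Real.pi / 8) : ℝ) : ℂ) * I := by
      push_cast; rfl
    rw [e1, e2, Complex.re_mul_ofReal, Complex.exp_ofReal_mul_I_re]
  simp only [hterm] at h3
  have hcl : ∀ m, ∀ l ∈ (P Om m).filter (fun l => ¬ Om (l.headD (0, 0))), |W l| ≤ 3 := by
    intro m l hl
    rw [Finset.mem_filter] at hl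
    obtain ⟨z, v, K, rfl, D⟩ := classify h1 hl.1 hl.2
    exact W_le_three hO D (hland z v (D.h5 v List.mem_cons_self) D.h2 D.hz)
  have h4 : Real.cos (3 * (Real.pi / 8)) * (∑ m ∈ Finset.range (N + 1),
      ∑ l ∈ (P Om m).filter (fun l => ¬ Om (l.headD (0, 0))), (mu0⁻¹) ^ m) ≤ 1 := by
    rw [← h3, Finset.mul_sum]
    refine Finset.sum_le_sum fun m _ => ?_
    rw [Finset.mul_sum]
    refine Finset.sum_le_sum fun l hl => ?_
    exact mul_le_mul_of_nonneg_right (cos_ge (hcl m l hl)) (by positivity)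
  have h5 : ∑ l ∈ F, (mu0⁻¹) ^ (l.length - 2) ≤ ∑ m ∈ Finset.range (N + 1),
      ∑ l ∈ (P Om m).filter (fun l => ¬ Om (l.headD (0, 0))), (mu0⁻¹) ^ m := by
    rw [← Finset.sum_fiberwise_of_maps_to (s := F) (t := Finset.range (N + 1))
      (g := fun l => l.length - 2)]
    · refine Finset.sum_le_sum fun m _ => ?_
      have hsub : F.filter (fun l => l.length - 2 = m) ⊆
          (P Om m).filter (fun l => ¬ Om (l.headD (0, 0))) := by
        intro l hl
        rw [Finset.mem_filter] at hl ⊢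
        obtain ⟨hl1, hl2⟩ := hl
        obtain ⟨hl3, hl4⟩ := hF l hl1
        refine ⟨mem_P.2 ⟨hl3, ?_⟩, hl4⟩
        match l, hl3, hl2 with
        | a :: b :: t, _, hl2 =>
          simp only [List.length_cons] at hl2 ⊢
          omega
      refine le_trans (le_of_eq ?_) (Finset.sum_le_sum_of_subset_of_nonneg hsub
        (fun _ _ _ => by positivity))
      refine Finset.sum_congr rfl fun l hl => ?_
      rw [(Finset.mem_filter.1 hl).2]
    · intro l hl
      have : l.length ≤ F.sup List.length := Finset.le_sup (f := List.length) hl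
      rw [Finset.mem_range]
      omega
  refine le_trans h5 ?_
  unfold c0
  rw [mul_comm] at h4
  have h6 := (le_div_iff₀ cos_pos).mpr h4
  rwa [one_div] at h6

end H131.V1
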