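import Pool.Graph.R_seed8.H978R2.Hex.Class

/-! Rotations of the honeycomb lattice (brick-wall coordinates) and its zigzag half-lines. -/

set_option autoImplicit false

namespace H131.V1

open H978R2.Hex Complex

/-- rotation by 120 degrees about the vertex `(0,0)` -/
def R (v : V) : V := (-((v.1 + v.2) / 2) - v.2, (v.1 + v.2 + 1) / 2 - v.2)

/-- rotation by 180 degrees about the middle of the edge from `(0,0)` to `(1,0)` -/
def J (v : V) : V := (1 - v.1, -v.2)

theorem R_par (v : V) : ((R v).1 + (R v).2) % 2 = (v.1 + v.2) % 2 := by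
  unfold R
  simp only
  omega

theorem R_inj : Function.Injective R := by
  rintro ⟨a, b⟩ ⟨c, d⟩ h
  unfold R at h
  simp only [Prod.mk.injEq] at h ⊢
  omega

theorem R_R_R (v : V) : R (R (R v)) = v := by
  obtain ⟨a, b⟩ := v
  unfold R
  simp only [Prod.mk.injEq]
  omega

theorem J_J (v : V) : J (J v) = v := by
  obtain ⟨a, b⟩ := v
  unfold J
  simp only [Prod.mk.injEq]
  omega

theorem J_inj : Function.Injective J := fun a b h => by
  rw [← J_J a, h, J_J]

theorem R_adj {p q : V} (h : Adj p q) : Adj (R p) (R q) := by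
  rw [adj_iff] at h ⊢
  unfold R
  simp only
  omega

theorem J_adj {p q : V} (h : Adj p q) : Adj (J p) (J q) := by
  rw [adj_iff] at h ⊢
  unfold J
  simp only
  omega

/-- `exp (2 π i / 3)` -/
noncomputable def om3 : ℂ := ⟨-1 / 2, Real.sqrt 3 / 2⟩

theorem ht_R (v : V) : ht (R v) = 3 * ((v.1 + v.2 + 1) / 2 - v.2) - (v.1 + v.2) % 2 := by
  unfold ht
  rw [R_par]
  rfl

theorem pos_R (v : V) : pos (R v) = om3 * pos v := by
  have h3 := sq3
  set e := (v.1 + v.2) / 2 with he
  set r := (v.1 + v.2) % 2 with hr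
  have h1 : v.1 = 2 * e + r - v.2 := by omega
  have h2 : (v.1 + v.2 + 1) / 2 = e + r := by omega
  have h4 : (R v).1 = -e - v.2 := rfl
  have h5 : ht (R v) = 3 * (e + r - v.2) - r := by
    rw [ht_R, h2]
  have h6 : ht v = 3 * v.2 - r := rfl
  have h1' : (v.1 : ℝ) = 2 * e + r - v.2 := by exact_mod_cast h1
  apply Complex.ext
  · unfold pos om3
    rw [h4, h6]
    simp only [Complex.mul_re]
    push_cast
    rw [h1']
    ring
  · unfold pos om3
    rw [h5, h6]
    simp only [Complex.mul_im]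
    push_cast
    rw [h1']
    linear_combination (-(2 * (e : ℝ) + r - v.2) / 4) * h3

theorem om3_ne : om3 ≠ 0 := by
  intro h
  have := congrArg Complex.re h
  unfold om3 at this
  simp at this

theorem ang_R (z p q : V) : ang (R z) (R p) (R q) = ang z p q := by
  unfold ang
  rw [pos_R, pos_R, pos_R, ← mul_sub, ← mul_sub, mul_div_mul_left _ _ om3_ne]

theorem wind_R (z : V) : ∀ L : List V, wind (R z) (L.map R) = wind z L
  | [] => rfl
  | [_] => rfl
  | p :: q :: t => by
    have h := wind_R z (q :: t)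
    rw [List.map_cons] at h
    rw [List.map_cons, List.map_cons]
    have e1 : wind (R z) (R p :: R q :: t.map R) =
      ang (R z) (R p) (R q) + wind (R z) (R q :: t.map R) := rfl
    have e2 : wind z (p :: q :: t) = ang z p q + wind z (q :: t) := rfl
    rw [e1, e2, ang_R, h]

/-- the next vertex on the zigzag half-line in the direction `60 k` degrees -/
def nxt : Fin 6 → V → V
  | 0, v => (v.1 + 1, v.2)
  | 1, v => if (v.1 + v.2) % 2 = 0 then (v.1, v.2 + 1) else (v.1 + 1, v.2)
  | 2, v => if (v.1 + v.2) % 2 = 0 then (v.1, v.2 + 1) else (v.1 - 1, v.2)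
  | 3, v => (v.1 - 1, v.2)
  | 4, v => if (v.1 + v.2) % 2 = 0 then (v.1 - 1, v.2) else (v.1, v.2 - 1)
  | 5, v => if (v.1 + v.2) % 2 = 0 then (v.1 + 1, v.2) else (v.1, v.2 - 1)

theorem nxt_adj (k : Fin 6) (v : V) : Adj v (nxt k v) := by
  rw [adj_iff]
  generalize hw : nxt k v = w
  fin_cases k
  · have h : (v.1 + 1, v.2) = w := hw
    rw [← h]
    simp only
    omega
  · have h : (if (v.1 + v.2) % 2 = 0 then (v.1, v.2 + 1) else (v.1 + 1, v.2)) = w := hw
    rw [← h]
    split_ifs <;> simp only <;> omega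
  · have h : (if (v.1 + v.2) % 2 = 0 then (v.1, v.2 + 1) else (v.1 - 1, v.2)) = w := hw
    rw [← h]
    split_ifs <;> simp only <;> omega
  · have h : (v.1 - 1, v.2) = w := hw
    rw [← h]
    simp only
    omega
  · have h : (if (v.1 + v.2) % 2 = 0 then (v.1 - 1, v.2) else (v.1, v.2 - 1)) = w := hw
    rw [← h]
    split_ifs <;> simp only <;> omega
  · have h : (if (v.1 + v.2) % 2 = 0 then (v.1 + 1, v.2) else (v.1, v.2 - 1)) = w := hw
    rw [← h]
    split_ifs <;> simp only <;> omega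

theorem nxt_R (k : Fin 6) (v : V) : R (nxt k v) = nxt (k + 2) (R v) := by
  have hp := R_par v
  have h1 : ((R v).1 + (R v).2) % 2 = 0 ↔ (v.1 + v.2) % 2 = 0 := by rw [hp]
  fin_cases k
  · show R (v.1 + 1, v.2) = if ((R v).1 + (R v).2) % 2 = 0 then ((R v).1, (R v).2 + 1) else ((R v).1 - 1, (R v).2)
    simp only [h1]
    unfold R
    split_ifs <;> simp only [Prod.mk.injEq] <;> omega
  · show R (if (v.1 + v.2) % 2 = 0 then (v.1, v.2 + 1) else (v.1 + 1, v.2)) = ((R v).1 - 1, (R v).2)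
    unfold R
    split_ifs <;> simp only [Prod.mk.injEq] <;> omega
  · show R (if (v.1 + v.2) % 2 = 0 then (v.1, v.2 + 1) else (v.1 - 1, v.2)) = if ((R v).1 + (R v).2) % 2 = 0 then ((R v).1 - 1, (R v).2) else ((R v).1, (R v).2 - 1)
    simp only [h1]
    unfold R
    split_ifs <;> simp only [Prod.mk.injEq] <;> omega
  · show R (v.1 - 1, v.2) = if ((R v).1 + (R v).2) % 2 = 0 then ((R v).1 + 1, (R v).2) else ((R v).1, (R v).2 - 1)
    simp only [h1]
    unfold R
    split_ifs <;> simp only [Prod.mk.injEq] <;> omega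
  · show R (if (v.1 + v.2) % 2 = 0 then (v.1 - 1, v.2) else (v.1, v.2 - 1)) = ((R v).1 + 1, (R v).2)
    unfold R
    split_ifs <;> simp only [Prod.mk.injEq] <;> omega
  · show R (if (v.1 + v.2) % 2 = 0 then (v.1 + 1, v.2) else (v.1, v.2 - 1)) = if ((R v).1 + (R v).2) % 2 = 0 then ((R v).1, (R v).2 + 1) else ((R v).1 + 1, (R v).2)
    simp only [h1]
    unfold R
    split_ifs <;> simp only [Prod.mk.injEq] <;> omega

theorem J_par (v : V) : ((J v).1 + (J v).2) % 2 = 0 ↔ ¬ (v.1 + v.2) % 2 = 0 := by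
  unfold J
  simp only
  omega

theorem nxt_J (k : Fin 6) (v : V) : J (nxt k v) = nxt (k + 3) (J v) := by
  have h1 := J_par v
  fin_cases k
  · show J (v.1 + 1, v.2) = ((J v).1 - 1, (J v).2)
    unfold J
    simp only [Prod.mk.injEq, and_true, true_and] <;> omega
  · show J (if (v.1 + v.2) % 2 = 0 then (v.1, v.2 + 1) else (v.1 + 1, v.2)) = if ((J v).1 + (J v).2) % 2 = 0 then ((J v).1 - 1, (J v).2) else ((J v).1, (J v).2 - 1)
    simp only [h1]
    unfold J
    split_ifs <;> simp only [Prod.mk.injEq, and_true, true_and] <;> omega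
  · show J (if (v.1 + v.2) % 2 = 0 then (v.1, v.2 + 1) else (v.1 - 1, v.2)) = if ((J v).1 + (J v).2) % 2 = 0 then ((J v).1 + 1, (J v).2) else ((J v).1, (J v).2 - 1)
    simp only [h1]
    unfold J
    split_ifs <;> simp only [Prod.mk.injEq, and_true, true_and] <;> omega
  · show J (v.1 - 1, v.2) = ((J v).1 + 1, (J v).2)
    unfold J
    simp only [Prod.mk.injEq, and_true, true_and] <;> omega
  · show J (if (v.1 + v.2) % 2 = 0 then (v.1 - 1, v.2) else (v.1, v.2 - 1)) = if ((J v).1 + (J v).2) % 2 = 0 then ((J v).1, (J v).2 + 1) else ((J v).1 + 1, (J v).2)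
    simp only [h1]
    unfold J
    split_ifs <;> simp only [Prod.mk.injEq, and_true, true_and] <;> omega
  · show J (if (v.1 + v.2) % 2 = 0 then (v.1 + 1, v.2) else (v.1, v.2 - 1)) = if ((J v).1 + (J v).2) % 2 = 0 then ((J v).1, (J v).2 + 1) else ((J v).1 - 1, (J v).2)
    simp only [h1]
    unfold J
    split_ifs <;> simp only [Prod.mk.injEq, and_true, true_and] <;> omega

theorem iter_R (k : Fin 6) (j : ℕ) (v : V) : R ((nxt k)^[j] v) = (nxt (k + 2))^[j] (R v) := by
  induction j generalizing v with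
  | zero => rfl
  | succ j ih => rw [Function.iterate_succ_apply, Function.iterate_succ_apply, ih, nxt_R]

theorem iter_J (k : Fin 6) (j : ℕ) (v : V) : J ((nxt k)^[j] v) = (nxt (k + 3))^[j] (J v) := by
  induction j generalizing v with
  | zero => rfl
  | succ j ih => rw [Function.iterate_succ_apply, Function.iterate_succ_apply, ih, nxt_J]

theorem iter_zero (j : ℕ) (v : V) : (nxt 0)^[j] v = (v.1 + j, v.2) := by
  induction j generalizing v with
  | zero => simp
  | succ j ih =>
    rw [Function.iterate_succ_apply, ih]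
    show ((v.1 + 1) + (j : ℤ), v.2) = (v.1 + ((j + 1 : ℕ) : ℤ), v.2)
    push_cast
    rw [Prod.mk.injEq]
    constructor
    · ring
    · rfl

theorem iter_three (j : ℕ) (v : V) : (nxt 3)^[j] v = (v.1 - j, v.2) := by
  induction j generalizing v with
  | zero => simp
  | succ j ih =>
    rw [Function.iterate_succ_apply, ih]
    show ((v.1 - 1) - (j : ℤ), v.2) = (v.1 - ((j + 1 : ℕ) : ℤ), v.2)
    push_cast
    rw [Prod.mk.injEq]
    constructor
    · ring
    · rfl

/-- the zigzag half-line from `v` in the direction `60 k` degrees, without `v` -/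
def Ray (k : Fin 6) (v : V) : Set V := {w | ∃ j : ℕ, 1 ≤ j ∧ (nxt k)^[j] v = w}

theorem ray_R {k : Fin 6} {v w : V} : R w ∈ Ray (k + 2) (R v) ↔ w ∈ Ray k v := by
  unfold Ray
  simp only [Set.mem_ofPred_eq]
  constructor
  · rintro ⟨j, hj, h⟩
    rw [← iter_R] at h
    exact ⟨j, hj, R_inj h⟩
  · rintro ⟨j, hj, rfl⟩
    exact ⟨j, hj, (iter_R _ _ _).symm⟩

theorem ray_J {k : Fin 6} {v w : V} : J w ∈ Ray (k + 3) (J v) ↔ w ∈ Ray k v := by
  unfold Ray
  simp only [Set.mem_ofPred_eq]
  constructor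
  · rintro ⟨j, hj, h⟩
    rw [← iter_J] at h
    exact ⟨j, hj, J_inj h⟩
  · rintro ⟨j, hj, rfl⟩
    exact ⟨j, hj, (iter_J _ _ _).symm⟩

theorem ray_zero {v w : V} : w ∈ Ray 0 v ↔ w.2 = v.2 ∧ v.1 < w.1 := by
  unfold Ray
  simp only [Set.mem_ofPred_eq, iter_zero]
  constructor
  · rintro ⟨j, hj, rfl⟩
    simp only [true_and]
    omega
  · rintro ⟨h1, h2⟩
    refine ⟨(w.1 - v.1).toNat, by omega, ?_⟩
    apply Prod.ext
    · simp only
      omega
    · exact h1.symm

theorem ray_three {v w : V} : w ∈ Ray 3 v ↔ w.2 = v.2 ∧ w.1 < v.1 := by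
  unfold Ray
  simp only [Set.mem_ofPred_eq, iter_three]
  constructor
  · rintro ⟨j, hj, rfl⟩
    simp only [true_and]
    omega
  · rintro ⟨h1, h2⟩
    refine ⟨(v.1 - w.1).toNat, by omega, ?_⟩
    apply Prod.ext
    · simp only
      omega
    · exact h1.symm

theorem ray_next {k : Fin 6} {v w : V} (h : w ∈ Ray k v) : Ray k w ⊆ Ray k v := by
  obtain ⟨j, hj, rfl⟩ := h
  rintro u ⟨i, hi, rfl⟩
  refine ⟨i + j, by omega, ?_⟩
  rw [Function.iterate_add_apply]

theorem nxt_mem (k : Fin 6) (v : V) : nxt k v ∈ Ray k v := ⟨1, le_refl _, rfl⟩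

end H131.V1
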