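import Pool.Agent.H131.V1.Rot

/-! The winding index of a landing walk whose landing vertex has a free zigzag half-line. -/

set_option autoImplicit false

namespace H131.V1

open H978R2.Hex Complex

/-- `exp (i π / 6)` -/
noncomputable def kap : ℂ := ⟨Real.sqrt 3 / 2, 1 / 2⟩

/-- `exp (-i π / 6)` -/
noncomputable def kab : ℂ := ⟨Real.sqrt 3 / 2, -1 / 2⟩

theorem kap_ne : kap ≠ 0 := by
  intro h
  have := congrArg Complex.im h
  unfold kap at this
  simp at this

theorem kab_ne : kab ≠ 0 := by
  intro h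
  have := congrArg Complex.im h
  unfold kab at this
  norm_num at this

theorem kab_kap : kab * kap = 1 := by
  have h := sq3
  apply Complex.ext
  · unfold kab kap
    simp only [Complex.mul_re, Complex.one_re]
    linear_combination h / 4
  · unfold kab kap
    simp only [Complex.mul_im, Complex.one_im]
    ring

theorem om_kab : om3 * kab = I := by
  have h := sq3
  apply Complex.ext
  · unfold om3 kab
    simp only [Complex.mul_re, Complex.I_re]
    ring
  · unfold om3 kab
    simp only [Complex.mul_im, Complex.I_im]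
    linear_combination h / 4

theorem om_I : om3 * I = -kap := by
  apply Complex.ext
  · unfold om3 kap
    simp
  · unfold om3 kap
    norm_num

theorem re_kap (p q : V) : (kap * (pos p - pos q)).re =
    ((3 * (p.1 - q.1) - (ht p - ht q) : ℤ) : ℝ) / 4 := by
  have h := sq3
  rw [Complex.mul_re, pos_sub_re, pos_sub_im]
  unfold kap
  simp only
  push_cast
  linear_combination (((p.1 : ℝ) - q.1) / 4) * h

theorem re_kap_nonneg {p q : V} (h : q.1 - q.2 ≤ p.1 - p.2) (hq : (q.1 - q.2) % 2 = 0) :
    0 ≤ (kap * (pos p - pos q)).re := by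
  rw [re_kap]
  have h1 : 0 ≤ 3 * (p.1 - q.1) - (ht p - ht q) := by
    unfold ht
    omega
  have h2 : (0 : ℝ) ≤ ((3 * (p.1 - q.1) - (ht p - ht q) : ℤ) : ℝ) := by exact_mod_cast h1
  linarith

theorem step_kap {b p q : V} (h : Adj q p) (hp : p ≠ b) (hq : q ≠ b)
    (hp' : 0 ≤ (kap * (pos p - pos b)).re) (hq' : 0 ≤ (kap * (pos q - pos b)).re) :
    ang b p q = arg (kap * (pos p - pos b)) - arg (kap * (pos q - pos b)) := by
  apply ang_kappa kap kap_ne hp hq
  have h1 := abs_ang_lt (adj_symm h) hp hq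
  have h2 := Complex.abs_arg_le_pi_div_two_iff.mpr hp'
  have h3 := Complex.abs_arg_le_pi_div_two_iff.mpr hq'
  have hpi := Real.pi_pos
  rw [abs_lt] at h1 ⊢
  rw [abs_le] at h2 h3
  constructor <;> linarith [h1.1, h1.2, h2.1, h2.2, h3.1, h3.2]

theorem kap_one : kap * pos (1, 0) = 1 := by
  have h : pos (1, 0) = kab := by
    unfold pos kab ht
    norm_num
  rw [h, mul_comm, kab_kap]

/-- the landing formula in a half-plane -/
theorem wformula {Om : V → Prop} (hO : ∀ w, Om w → 1 ≤ w.1 - w.2) {z v : V} {K : List V}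
    (D : LandD Om z v K) : z ≠ (0, 0) ∧ 0 ≤ z.1 - z.2 ∧
      (W (z :: v :: (K ++ [(0, 0)])) : ℝ) * (Real.pi / 3) =
        arg (kap * pos z) + wind z (v :: (K ++ [(0, 0)])) := by
  have hv := hO v (D.h5 v List.mem_cons_self)
  have ha := D.h2
  rw [adj_iff] at ha
  have hz0 : z ≠ (0, 0) := by
    intro e
    rw [e] at ha
    simp only at ha
    have hv1 : v = (1, 0) := by
      apply Prod.ext
      · simp only; omega
      · simp only; omega
    have hK : K = [] := by
      by_contra hK
      have e1 : (v :: K).getLast (by simp) = K.getLast hK := List.getLast_cons hK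
      have e2 : (1, 0) ∈ K := by
        rw [← D.h6, e1]
        exact List.getLast_mem hK
      have e3 := (List.nodup_cons.mp D.h4).1
      apply e3
      rw [hv1]
      exact List.mem_append_left _ e2
    exact D.h7 hK e
  have hzc : 0 ≤ z.1 - z.2 := by omega
  refine ⟨hz0, hzc, ?_⟩
  have hc : (z :: ((v :: K) ++ [(0, 0)])).IsChain (fun x y => Adj y x) := by
    rw [List.cons_append]
    exact List.isChain_cons_cons.mpr ⟨D.h2, D.h3⟩
  have hn : (z :: ((v :: K) ++ [(0, 0)])).Nodup := by
    rw [List.cons_append]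
    refine List.nodup_cons.mpr ⟨?_, D.h4⟩
    intro hm
    have : z ∈ (v :: K) ++ [(0, 0)] := hm
    rcases List.mem_append.1 this with h | h
    · exact D.hz (D.h5 z h)
    · exact hz0 (List.mem_singleton.1 h)
  have h := hopf z (0, 0) (v :: K) hc hn
  have e : z :: ((v :: K) ++ [(0, 0)]) = z :: v :: (K ++ [(0, 0)]) := rfl
  have e' : (v :: K) ++ [(0, 0)] = v :: (K ++ [(0, 0)]) := rfl
  rw [e, e'] at h
  rw [h]
  congr 1
  have hcK : (z :: v :: K).IsChain (fun x y => Adj y x) := by
    have : ((z :: v :: K) ++ [(0, 0)]).IsChain (fun x y => Adj y x) := hc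
    exact (List.isChain_append.mp this).1
  have h8 := wind_tel (0, 0) (fun w => arg (kap * (pos w - pos (0, 0))))
    (fun w => w ≠ (0, 0) ∧ 0 ≤ w.1 - w.2)
    (fun p q h1 hp hq => step_kap h1 hp.1 hq.1
      (re_kap_nonneg (by simpa using hp.2) (by simp)) (re_kap_nonneg (by simpa using hq.2) (by simp)))
    z (v :: K) hcK (by
      intro w hw
      rcases List.mem_cons.1 hw with rfl | hw
      · exact ⟨hz0, hzc⟩
      · have := hO w (D.h5 w hw)
        refine ⟨?_, by omega⟩
        rintro rfl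
        simp at this)
  rw [h8]
  have e3 : (z :: v :: K).getLast (by simp) = (v :: K).getLast (by simp) :=
    List.getLast_cons (by simp)
  rw [e3, D.h6]
  simp only [pos_zero, sub_zero]
  rw [kap_one, Complex.arg_one, sub_zero]

/-- a walk which avoids the half-line to the left of `z` -/
theorem wind_rowR {z v : V} {L : List V} (hc : (v :: L).IsChain (fun x y => Adj y x))
    (hS : ∀ w ∈ v :: L, w ≠ z ∧ w ∉ Ray 3 z) :
    wind z (v :: L) = arg (pos v - pos z) - arg (pos ((v :: L).getLast (by simp)) - pos z) := by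
  refine wind_tel z (fun w => arg (pos w - pos z)) (fun w => w ≠ z ∧ (w.2 = z.2 → z.1 < w.1))
    (fun p q h hp hq => step_right h hp hq) v L hc ?_
  intro w hw
  obtain ⟨h1, h2⟩ := hS w hw
  rw [ray_three] at h2
  refine ⟨h1, fun e => ?_⟩
  have : w.1 ≠ z.1 := fun e' => h1 (Prod.ext e' e)
  omega

/-- a walk which avoids the half-line to the right of `z` -/
theorem wind_rowL {z v : V} {L : List V} (hc : (v :: L).IsChain (fun x y => Adj y x))
    (hS : ∀ w ∈ v :: L, w ≠ z ∧ w ∉ Ray 0 z) :
    wind z (v :: L) = arg (pos z - pos v) - arg (pos z - pos ((v :: L).getLast (by simp))) := by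
  refine wind_tel z (fun w => arg (pos z - pos w)) (fun w => w ≠ z ∧ (z.2 = w.2 → w.1 < z.1))
    (fun p q h hp hq => step_left h hp hq) v L hc ?_
  intro w hw
  obtain ⟨h1, h2⟩ := hS w hw
  rw [ray_zero] at h2
  refine ⟨h1, fun e => ?_⟩
  have : w.1 ≠ z.1 := fun e' => h1 (Prod.ext e' e.symm)
  omega

theorem arg_rowR {z v : V} (h : Adj v z) (h1 : v ∉ Ray 3 z) : |arg (pos v - pos z)| ≤ Real.pi / 2 := by
  rw [Complex.abs_arg_le_pi_div_two_iff, pos_sub_re]
  rw [ray_three] at h1
  rw [adj_iff] at h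
  have h2 : 0 ≤ v.1 - z.1 := by omega
  have h3 : (0 : ℝ) ≤ ((v.1 - z.1 : ℤ) : ℝ) := by exact_mod_cast h2
  positivity

theorem arg_rowL {z v : V} (h : Adj v z) (h1 : v ∉ Ray 0 z) : |arg (pos z - pos v)| ≤ Real.pi / 2 := by
  rw [Complex.abs_arg_le_pi_div_two_iff, pos_sub_re]
  rw [ray_zero] at h1
  rw [adj_iff] at h
  have h2 : 0 ≤ z.1 - v.1 := by omega
  have h3 : (0 : ℝ) ≤ ((z.1 - v.1 : ℤ) : ℝ) := by exact_mod_cast h2
  positivity

theorem R_zero : R (0, 0) = (0, 0) := by
  unfold R
  simp

theorem chain_R {L : List V} (h : L.IsChain (fun x y => Adj y x)) :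
    (L.map R).IsChain (fun x y => Adj y x) := by
  rw [List.isChain_map]
  exact h.imp (fun a b hab => R_adj hab)

theorem arg_kab_mul {y : ℂ} (hy : y ≠ 0) (h : 0 ≤ y.re) : arg (kab * y) = arg y - Real.pi / 6 := by
  have h2 := Complex.abs_arg_le_pi_div_two_iff.mpr h
  rw [abs_le] at h2
  have hpi := Real.pi_pos
  have h3 : arg kab = -(Real.pi / 6) := arg_minus
  rw [Complex.arg_mul kab_ne hy, h3]
  · ring
  · rw [h3]
    constructor <;> linarith [h2.1, h2.2]

theorem arg_kap_mul {y : ℂ} (hy : y ≠ 0) (h : 0 ≤ y.re) : arg (kap * y) = arg y + Real.pi / 6 := by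
  have h2 := Complex.abs_arg_le_pi_div_two_iff.mpr h
  rw [abs_le] at h2
  have hpi := Real.pi_pos
  have h3 : arg kap = Real.pi / 6 := arg_plus
  rw [Complex.arg_mul kap_ne hy, h3]
  · ring
  · rw [h3]
    constructor <;> linarith [h2.1, h2.2]

theorem arg_I_mul {y : ℂ} (hy : y ≠ 0) (h : 0 ≤ y.re) : arg (I * y) = arg y + Real.pi / 2 := by
  have h2 := Complex.abs_arg_le_pi_div_two_iff.mpr h
  rw [abs_le] at h2
  have hpi := Real.pi_pos
  rw [Complex.arg_mul I_ne_zero hy, Complex.arg_I]
  · ring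
  · rw [Complex.arg_I]
    constructor <;> linarith [h2.1, h2.2]

theorem arg_negI_mul {y : ℂ} (hy : y ≠ 0) (h : 0 < y.re) : arg (-I * y) = arg y - Real.pi / 2 := by
  have h2 := Complex.abs_arg_lt_pi_div_two_iff.mpr (Or.inl h)
  rw [abs_lt] at h2
  have hpi := Real.pi_pos
  rw [Complex.arg_mul (neg_ne_zero.mpr I_ne_zero) hy, Complex.arg_neg_I]
  · ring
  · rw [Complex.arg_neg_I]
    constructor <;> linarith [h2.1, h2.2]

theorem W_abs {w : ℤ} (h : |(w : ℝ) * (Real.pi / 3)| ≤ Real.pi) : |w| ≤ 3 := by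
  have hpi := Real.pi_pos
  rw [abs_mul, abs_of_pos (by positivity : 0 < Real.pi / 3)] at h
  have h1 : |(w : ℝ)| ≤ 3 := by
    by_contra hc
    rw [not_le] at hc
    nlinarith
  have h2 : ((|w| : ℤ) : ℝ) ≤ 3 := by
    rw [Int.cast_abs]
    exact h1
  exact_mod_cast h2

/-- the winding index is at most 3 in absolute value -/
theorem W_le_three {Om : V → Prop} (hO : ∀ w, Om w → 1 ≤ w.1 - w.2) {z v : V} {K : List V}
    (D : LandD Om z v K)
    (h : z.1 - z.2 = 0 ∨ ∃ k : Fin 6, k ≠ 2 ∧ k ≠ 3 ∧ ∀ w, Om w → w ∉ Ray k z) :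
    |W (z :: v :: (K ++ [(0, 0)]))| ≤ 3 := by
  obtain ⟨hz0, hzc, hf⟩ := wformula hO D
  have hv := hO v (D.h5 v List.mem_cons_self)
  have hadj := D.h2
  have hne : ∀ w ∈ v :: (K ++ [(0, 0)]), w ≠ z :=
    mem_ext D.h5 (fun w hw e => D.hz (e ▸ hw)) hz0.symm
  apply W_abs
  rw [hf]
  have hpi := Real.pi_pos
  set y := kap * pos z with hy
  have hyp : pos z = kab * y := by
    rw [hy, ← mul_assoc, kab_kap, one_mul]
  have hpz : pos z ≠ 0 := by
    have := pos_sub_ne hz0
    rwa [pos_zero, sub_zero] at this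
  have hy0 : y ≠ 0 := mul_ne_zero kap_ne hpz
  have hyre : 0 ≤ y.re := by
    have := re_kap_nonneg (p := z) (q := (0, 0)) (by simpa using hzc) (by simp)
    rwa [pos_zero, sub_zero] at this
  have hyarg := Complex.abs_arg_le_pi_div_two_iff.mpr hyre
  by_cases hbot : z.1 - z.2 = 0
  · -- landing on the bottom line
    have hve : v.1 = z.1 + 1 ∧ v.2 = z.2 := by
      rw [adj_iff] at hadj
      omega
    have hre : ∀ w : V, 0 ≤ w.1 - w.2 → 0 ≤ (kap * (pos w - pos z)).re := fun w hw =>
      re_kap_nonneg (by omega) (by omega)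
    have h8 := wind_tel z (fun w => arg (kap * (pos w - pos z)))
      (fun w => w ≠ z ∧ 0 ≤ w.1 - w.2)
      (fun p q h1 hp hq => step_kap h1 hp.1 hq.1 (hre p hp.2) (hre q hq.2))
      v (K ++ [(0, 0)]) D.h3 (by
        intro w hw
        refine ⟨hne w hw, ?_⟩
        refine mem_ext (S := fun w => 0 ≤ w.1 - w.2) D.h5 (fun w hw => ?_) ?_ w hw
        · have := hO w hw
          omega
        · simp)
    rw [last_zero] at h8
    simp only [pos_zero, zero_sub] at h8
    have hvz : pos v - pos z = kab := by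
      rw [pos_sub_eq (x := 1) (h := -1) (by omega) (by unfold ht; omega)]
      unfold kab
      norm_num
    rw [h8, hvz, mul_comm kap kab, kab_kap, Complex.arg_one]
    have h9 : 0 ≤ (kap * -pos z).re := by
      have := hre (0, 0) (by simp)
      rwa [pos_zero, zero_sub] at this
    have h10 := Complex.abs_arg_le_pi_div_two_iff.mpr h9
    rw [abs_le] at h10 hyarg ⊢
    constructor <;> linarith [h10.1, h10.2, hyarg.1, hyarg.2]
  · obtain ⟨k, hk2, hk3, hk⟩ := h.resolve_left hbot
    have hzc1 : 1 ≤ z.1 - z.2 := by omega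
    have hyre1 : 0 < y.re := by
      have h1 := re_kap z (0, 0)
      rw [pos_zero, sub_zero] at h1
      rw [hy, h1]
      have h2 : 0 < 3 * (z.1 - ((0, 0) : V).1) - (ht z - ht (0, 0)) := by
        unfold ht
        simp only
        omega
      have h3 : (0 : ℝ) < ((3 * (z.1 - ((0, 0) : V).1) - (ht z - ht (0, 0)) : ℤ) : ℝ) := by
        exact_mod_cast h2
      linarith
    have hcR := chain_R D.h3
    have hlast0 : ((v :: (K ++ [(0, 0)])).map R).getLast (by simp) = (0, 0) := by
      rw [List.getLast_map, last_zero, R_zero]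
    have hcRR := chain_R hcR
    have hlastR0 : (((v :: (K ++ [(0, 0)])).map R).map R).getLast (by simp) = (0, 0) := by
      rw [List.getLast_map, hlast0, R_zero]
    have hlast : (R v :: (K ++ [(0, 0)]).map R).getLast (by simp) = (0, 0) := hlast0
    have hlastR : (R (R v) :: ((K ++ [(0, 0)]).map R).map R).getLast (by simp) = (0, 0) := hlastR0
    rw [List.map_cons] at hcR hcRR
    rw [List.map_cons] at hcRR
    have hk6 : k = 0 ∨ k = 1 ∨ k = 4 ∨ k = 5 := by
      revert hk2 hk3
      clear hk h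
      revert k
      decide
    rcases hk6 with rfl | rfl | rfl | rfl
    · -- direction 0
      have hS : ∀ w ∈ v :: (K ++ [(0, 0)]), w ≠ z ∧ w ∉ Ray 0 z := by
        intro w hw
        refine ⟨hne w hw, ?_⟩
        refine mem_ext (S := fun w => w ∉ Ray 0 z) D.h5 hk ?_ w hw
        simp only [ray_zero]
        omega
      have h1 := wind_rowL D.h3 hS
      rw [last_zero, pos_zero, sub_zero] at h1
      have h2 := arg_rowL hadj (hS v List.mem_cons_self).2
      rw [h1]
      have h3 := arg_kab_mul hy0 hyre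
      rw [← hyp] at h3
      rw [h3]
      rw [abs_le] at h2 ⊢
      constructor <;> linarith [h2.1, h2.2]
    · -- direction 1
      have hS : ∀ w ∈ v :: (K ++ [(0, 0)]), w ≠ z ∧ w ∉ Ray 1 z := by
        intro w hw
        refine ⟨hne w hw, ?_⟩
        refine mem_ext (S := fun w => w ∉ Ray 1 z) D.h5 hk ?_ w hw
        rw [← ray_R, R_zero]
        change (0, 0) ∉ Ray 3 (R z)
        rw [ray_three]
        unfold R
        simp only
        omega
      have hS' : ∀ w ∈ R v :: (K ++ [(0, 0)]).map R, w ≠ R z ∧ w ∉ Ray 3 (R z) := by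
        intro w hw
        rw [← List.map_cons, List.mem_map] at hw
        obtain ⟨u, hu, rfl⟩ := hw
        obtain ⟨g1, g2⟩ := hS u hu
        refine ⟨fun e => g1 (R_inj e), fun e => g2 ?_⟩
        rw [← ray_R]
        exact e
      have h0 := wind_R z (v :: (K ++ [(0, 0)]))
      rw [List.map_cons] at h0
      have h1 := wind_rowR hcR hS'
      rw [hlast, pos_zero, zero_sub, h0] at h1
      have h2 := arg_rowR (R_adj hadj) (hS' (R v) List.mem_cons_self).2
      rw [h1]
      have h3 := arg_negI_mul hy0 hyre1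
      have h4 : -pos (R z) = -I * y := by
        rw [pos_R, hyp, ← mul_assoc, om_kab, neg_mul]
      rw [h4, h3]
      rw [abs_le] at h2 ⊢
      constructor <;> linarith [h2.1, h2.2]
    · -- direction 4
      have hS : ∀ w ∈ v :: (K ++ [(0, 0)]), w ≠ z ∧ w ∉ Ray 4 z := by
        intro w hw
        refine ⟨hne w hw, ?_⟩
        refine mem_ext (S := fun w => w ∉ Ray 4 z) D.h5 hk ?_ w hw
        rw [← ray_R, R_zero]
        change (0, 0) ∉ Ray 0 (R z)
        rw [ray_zero]
        unfold R
        simp only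
        omega
      have hS' : ∀ w ∈ R v :: (K ++ [(0, 0)]).map R, w ≠ R z ∧ w ∉ Ray 0 (R z) := by
        intro w hw
        rw [← List.map_cons, List.mem_map] at hw
        obtain ⟨u, hu, rfl⟩ := hw
        obtain ⟨g1, g2⟩ := hS u hu
        refine ⟨fun e => g1 (R_inj e), fun e => g2 ?_⟩
        rw [← ray_R]
        exact e
      have h0 := wind_R z (v :: (K ++ [(0, 0)]))
      rw [List.map_cons] at h0
      have h1 := wind_rowL hcR hS'
      rw [hlast, pos_zero, sub_zero, h0] at h1
      have h2 := arg_rowL (R_adj hadj) (hS' (R v) List.mem_cons_self).2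
      rw [h1]
      have h3 := arg_I_mul hy0 hyre
      have h4 : pos (R z) = I * y := by
        rw [pos_R, hyp, ← mul_assoc, om_kab]
      rw [h4, h3, ← h4]
      rw [abs_le] at h2 ⊢
      constructor <;> linarith [h2.1, h2.2]
    · -- direction 5
      have hS : ∀ w ∈ v :: (K ++ [(0, 0)]), w ≠ z ∧ w ∉ Ray 5 z := by
        intro w hw
        refine ⟨hne w hw, ?_⟩
        refine mem_ext (S := fun w => w ∉ Ray 5 z) D.h5 hk ?_ w hw
        rw [← ray_R, ← ray_R, R_zero, R_zero]
        change (0, 0) ∉ Ray 3 (R (R z))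
        rw [ray_three]
        unfold R
        simp only
        omega
      have hS' : ∀ w ∈ R (R v) :: ((K ++ [(0, 0)]).map R).map R,
          w ≠ R (R z) ∧ w ∉ Ray 3 (R (R z)) := by
        intro w hw
        rw [← List.map_cons, ← List.map_cons, List.mem_map] at hw
        obtain ⟨u', hu', rfl⟩ := hw
        rw [List.mem_map] at hu'
        obtain ⟨u, hu, rfl⟩ := hu'
        obtain ⟨g1, g2⟩ := hS u hu
        refine ⟨fun e => g1 (R_inj (R_inj e)), fun e => g2 ?_⟩
        rw [← ray_R, ← ray_R]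
        exact e
      have h0 := wind_R z (v :: (K ++ [(0, 0)]))
      have h00 := wind_R (R z) ((v :: (K ++ [(0, 0)])).map R)
      rw [h0, List.map_cons, List.map_cons] at h00
      have h1 := wind_rowR hcRR hS'
      rw [hlastR, pos_zero, zero_sub, h00] at h1
      have h2 := arg_rowR (R_adj (R_adj hadj)) (hS' (R (R v)) List.mem_cons_self).2
      rw [h1]
      have h3 := arg_kap_mul hy0 hyre
      have h4 : -pos (R (R z)) = kap * y := by
        rw [pos_R, pos_R, hyp, ← mul_assoc om3 kab, om_kab, ← mul_assoc, om_I]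
        ring
      rw [h4, h3]
      rw [abs_le] at h2 ⊢
      constructor <;> linarith [h2.1, h2.2]

end H131.V1
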